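import Pool.Agent.Helper73.Witness.Proof

universe u

namespace Pool.Agent.Results.MP_ec3397_lc.ReapingBound

open Cardinal Set Pool.Agent.Helper73.Witness

/-- Let `X` be a normal space and `Y` a closed discrete subspace of size `ℵ₁`. If the normality of
`Y` is witnessed by a family of fewer than `𝔯(ω₁)` neighbourhood assignments, where `𝔯(ω₁)` is the
reaping number at `ω₁`, then `Y` is separated. -/
theorem result {X : Type u} [TopologicalSpace X] [NormalSpace X] (Y : Set X) (hc : IsClosed Y)
    (hd : DiscreteTopology Y) (hY : #Y = ℵ₁) (F : Set (Y → Set X))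
    (hF : ∀ f ∈ F, IsAssignment Y f) (hw : ∀ Z : Set Y, ∃ f ∈ F, Witnesses f Z)
    (hcard : #F < reapingNumber.{u}) : IsSeparated Y :=
  main Y hc hY F hF hw hcard

end Pool.Agent.Results.MP_ec3397_lc.ReapingBound
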