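import Pool.Agent.Helper64.EC.Star

namespace Pool.Agent.Results.MP_ec3397_lc.StarWithoutCH

open Pool.Agent.Helper64.EC

/-- `(∗)` does not imply the continuum hypothesis: there is a model of ZFC in which `(∗)` holds
and `2 ^ ℵ₀ ≠ ℵ₁`. -/
theorem result : ∃ (M : Type) (_ : Membership M M), IsZFC M ∧ Star M ∧ ¬ CH M := main

end Pool.Agent.Results.MP_ec3397_lc.StarWithoutCH
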